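import Pool.Agent.Helper66.SC.Spec

set_option autoImplicit false

namespace Pool.Agent.Helper67.SC

open Finset MeasureTheory Pool.Agent.Helper66.SC

/-- the real density -/
noncomputable def gr (t : ℝ) : ℝ := Real.exp t * Real.exp (-Real.exp t)

theorem gr_nonneg (t : ℝ) : 0 ≤ gr t := by unfold gr; positivity

theorem hasDeriv_gr (t : ℝ) : HasDerivAt (fun t => -Real.exp (-Real.exp t)) (gr t) t := by
  have h1 : HasDerivAt (fun t => -Real.exp t) (-Real.exp t) t := (Real.hasDerivAt_exp t).neg
  have h2 := (h1.exp).neg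
  exact h2.congr_deriv (by unfold gr; ring)

theorem tendsto_gr : Filter.Tendsto (fun t => -Real.exp (-Real.exp t)) Filter.atTop (nhds 0) := by
  have h1 : Filter.Tendsto (fun t => Real.exp (-Real.exp t)) Filter.atTop (nhds 0) :=
    Real.tendsto_exp_atBot.comp (Filter.tendsto_neg_atTop_atBot.comp Real.tendsto_exp_atTop)
  simpa using h1.neg

theorem integrableOn_gr (a : ℝ) : IntegrableOn gr (Set.Ioi a) :=
  integrableOn_Ioi_deriv_of_nonneg' (fun t _ => hasDeriv_gr t) (fun t _ => gr_nonneg t) tendsto_gr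

theorem integral_gr (a : ℝ) : ∫ t in Set.Ioi a, gr t = Real.exp (-Real.exp a) := by
  rw [integral_Ioi_of_hasDerivAt_of_tendsto' (fun t _ => hasDeriv_gr t) (integrableOn_gr a)
    tendsto_gr]
  ring

/-- the integral of the product of tails -/
theorem lintegral_tails {κ : Type} [Fintype κ] (a : κ → ℝ) :
    ∫⁻ b : κ → ℝ, ∏ v, (Set.Ioi (a v)).indicator g (b v) =
      ENNReal.ofReal (∏ v, Real.exp (-Real.exp (a v))) := by
  have h1 : ∀ b : κ → ℝ, ∏ v, (Set.Ioi (a v)).indicator g (b v) =
      ENNReal.ofReal (∏ v, (Set.Ioi (a v)).indicator gr (b v)) := by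
    intro b
    rw [ENNReal.ofReal_prod_of_nonneg]
    · refine Finset.prod_congr rfl fun v _ => ?_
      by_cases h : b v ∈ Set.Ioi (a v)
      · rw [Set.indicator_of_mem h, Set.indicator_of_mem h]; rfl
      · rw [Set.indicator_of_notMem h, Set.indicator_of_notMem h]; simp
    · intro v _
      exact Set.indicator_nonneg (fun t _ => gr_nonneg t) _
  simp_rw [h1]
  have hint : ∀ v, Integrable ((Set.Ioi (a v)).indicator gr) :=
    fun v => (integrable_indicator_iff measurableSet_Ioi).2 (integrableOn_gr (a v))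
  rw [← ofReal_integral_eq_lintegral_ofReal]
  · congr 1
    rw [integral_fintype_prod_volume_eq_prod (fun v => (Set.Ioi (a v)).indicator gr)]
    refine Finset.prod_congr rfl fun v _ => ?_
    rw [integral_indicator measurableSet_Ioi, integral_gr]
  · exact Integrable.fintype_prod hint
  · refine Filter.Eventually.of_forall fun b => ?_
    exact Finset.prod_nonneg fun v _ => Set.indicator_nonneg (fun t _ => gr_nonneg t) _


variable {d : ℕ}

theorem ev_eq (s : Fin (d + 1) → Vt d) (l : Fin (d + 1) → ℝ) (i : Fin (d + 1)) :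
    ev l (s i) = (mat s).mulVec l i := by
  simp [ev, mat, Matrix.mulVec, dotProduct]

theorem inj_of_det (s : Fin (d + 1) → Vt d) (hs : (mat s).det ≠ 0) : Function.Injective s := by
  intro i j hij
  by_contra hne
  apply hs
  apply Matrix.det_zero_of_row_eq hne
  ext k
  simp [mat, hij]

/-- the affine function through the values `y` -/
noncomputable def lof (s : Fin (d + 1) → Vt d) (y : Fin (d + 1) → ℝ) : Fin (d + 1) → ℝ :=
  (mat s)⁻¹.mulVec y

theorem lof_spec (s : Fin (d + 1) → Vt d) (hs : (mat s).det ≠ 0) (y l : Fin (d + 1) → ℝ) :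
    (∀ i, ev l (s i) = y i) ↔ l = lof s y := by
  have hu : IsUnit (mat s).det := isUnit_iff_ne_zero.2 hs
  constructor
  · intro h
    have h1 : (mat s).mulVec l = y := by
      ext i; rw [← ev_eq, h i]
    rw [lof, ← h1, Matrix.mulVec_mulVec, Matrix.nonsing_inv_mul _ hu, Matrix.one_mulVec]
  · rintro rfl i
    rw [ev_eq, lof, Matrix.mulVec_mulVec, Matrix.mul_nonsing_inv _ hu, Matrix.one_mulVec]

theorem low_iff (s : Fin (d + 1) → Vt d) (hs : (mat s).det ≠ 0) (h : Vt d → ℝ) :
    Low h s ↔ ∀ v, v ∉ Set.range s → ev (lof s (fun i => h (s i))) v < h v := by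
  unfold Low
  constructor
  · rintro ⟨_, h2⟩ v hv
    exact h2 _ ((lof_spec s hs (fun i => h (s i)) _).2 rfl) v hv
  · intro h2
    refine ⟨hs, fun l hl v hv => ?_⟩
    have := (lof_spec s hs (fun i => h (s i)) l).1 hl
    rw [this]
    exact h2 v hv

theorem measurable_ev_lof (s : Fin (d + 1) → Vt d) (v : Vt d) :
    Measurable fun y : Fin (d + 1) → ℝ => ev (lof s y) v := by
  unfold ev lof
  simp only [Matrix.mulVec, dotProduct]
  fun_prop

theorem measurableSet_low (s : Fin (d + 1) → Vt d) (hs : (mat s).det ≠ 0) :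
    MeasurableSet {h : Vt d → ℝ | Low h s} := by
  have h1 : {h : Vt d → ℝ | Low h s} =
      ⋂ v : Vt d, ⋂ (_ : v ∉ Set.range s), {h | ev (lof s (fun i => h (s i))) v < h v} := by
    ext h
    rw [Set.mem_ofPred_eq, low_iff s hs]
    simp only [Set.mem_iInter, Set.mem_ofPred_eq]
  rw [h1]
  refine MeasurableSet.iInter fun v => MeasurableSet.iInter fun _ => ?_
  refine measurableSet_lt ?_ (measurable_pi_apply v)
  exact (measurable_ev_lof s v).comp
    (measurable_pi_lambda _ fun i => measurable_pi_apply (s i))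

section Split

/-- enumeration of the vertices of the simplex -/
noncomputable def es (s : Fin (d + 1) → Vt d) (hi : Function.Injective s) :
    Fin (d + 1) ≃ {v : Vt d // ∃ i, s i = v} :=
  Equiv.ofBijective (fun i => ⟨s i, i, rfl⟩)
    ⟨fun _ _ h => hi (congrArg Subtype.val h), fun v => ⟨v.2.choose, Subtype.ext v.2.choose_spec⟩⟩

/-- the heights with values `y` on the simplex and `b` elsewhere -/
noncomputable def HH (s : Fin (d + 1) → Vt d) (hi : Function.Injective s) (y : Fin (d + 1) → ℝ)
    (b : {v : Vt d // ¬ ∃ i, s i = v} → ℝ) : Vt d → ℝ :=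
  (MeasurableEquiv.piEquivPiSubtypeProd (fun _ : Vt d => ℝ) (fun v => ∃ i, s i = v)).symm
    (MeasurableEquiv.piCongrLeft (fun _ : {v : Vt d // ∃ i, s i = v} => ℝ) (es s hi) y, b)

theorem HH_s (s : Fin (d + 1) → Vt d) (hi : Function.Injective s) (y : Fin (d + 1) → ℝ)
    (b : {v : Vt d // ¬ ∃ i, s i = v} → ℝ) (i : Fin (d + 1)) : HH s hi y b (s i) = y i := by
  have h : ∃ j, s j = s i := ⟨i, rfl⟩
  have h1 : HH s hi y b (s i) = (MeasurableEquiv.piCongrLeft
      (fun _ : {v : Vt d // ∃ i, s i = v} => ℝ) (es s hi) y) ⟨s i, h⟩ := by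
    unfold HH
    change (Equiv.piEquivPiSubtypeProd (fun v => ∃ i, s i = v) (fun _ : Vt d => ℝ)).symm _ _ = _
    rw [Equiv.piEquivPiSubtypeProd_symm_apply, dif_pos h]
  rw [h1, MeasurableEquiv.coe_piCongrLeft]
  exact Equiv.piCongrLeft_apply_apply (fun _ : {v : Vt d // ∃ i, s i = v} => ℝ) (es s hi) y i

theorem HH_not (s : Fin (d + 1) → Vt d) (hi : Function.Injective s) (y : Fin (d + 1) → ℝ)
    (b : {v : Vt d // ¬ ∃ i, s i = v} → ℝ) (v : {v : Vt d // ¬ ∃ i, s i = v}) :
    HH s hi y b v = b v := by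
  unfold HH
  change (Equiv.piEquivPiSubtypeProd (fun v => ∃ i, s i = v) (fun _ : Vt d => ℝ)).symm _ _ = _
  rw [Equiv.piEquivPiSubtypeProd_symm_apply, dif_neg v.2]

theorem lintegral_split (s : Fin (d + 1) → Vt d) (hi : Function.Injective s)
    (F : (Vt d → ℝ) → ENNReal) (hF : Measurable F) :
    ∫⁻ h, F h = ∫⁻ y : Fin (d + 1) → ℝ, ∫⁻ b, F (HH s hi y b) := by
  have m1 := (volume_preserving_piEquivPiSubtypeProd (fun _ : Vt d => ℝ)
    (fun v => ∃ i, s i = v)).symm
  have m2 := volume_measurePreserving_piCongrLeft (fun _ : {v : Vt d // ∃ i, s i = v} => ℝ)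
    (es s hi)
  rw [← m1.lintegral_comp_emb (MeasurableEquiv.measurableEmbedding _) F, Measure.volume_eq_prod,
    lintegral_prod _ (by
      exact (hF.comp (MeasurableEquiv.measurable _)).aemeasurable)]
  rw [← m2.lintegral_comp_emb (MeasurableEquiv.measurableEmbedding _)]
  rfl

theorem F_eq (s : Fin (d + 1) → Vt d) (hs : (mat s).det ≠ 0) (y : Fin (d + 1) → ℝ)
    (b : {v : Vt d // ¬ ∃ i, s i = v} → ℝ) :
    Set.indicator {h | Low h s} G (HH s (inj_of_det s hs) y b) =
      (∏ i, g (y i)) * ∏ v : {v : Vt d // ¬ ∃ i, s i = v},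
        (Set.Ioi (ev (lof s y) v)).indicator g (b v) := by
  set hi := inj_of_det s hs
  have hG : G (HH s hi y b) = (∏ i, g (y i)) *
      ∏ v : {v : Vt d // ¬ ∃ i, s i = v}, g (b v) := by
    unfold G
    rw [← Fintype.prod_subtype_mul_prod_subtype (fun v => ∃ i, s i = v)]
    congr 1
    · rw [← (es s hi).prod_comp]
      refine Finset.prod_congr rfl fun i _ => ?_
      change g (HH s hi y b (s i)) = _
      rw [HH_s]
    · refine Finset.prod_congr rfl fun v _ => ?_
      rw [HH_not]
  have hy : (fun i => HH s hi y b (s i)) = y := by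
    ext i; rw [HH_s]
  by_cases hl : Low (HH s hi y b) s
  · rw [Set.indicator_of_mem (show HH s hi y b ∈ {h | Low h s} from hl), hG]
    congr 1
    refine Finset.prod_congr rfl fun v _ => ?_
    have h1 := (low_iff s hs _).1 hl v v.2
    rw [hy, HH_not] at h1
    rw [Set.indicator_of_mem (show b v ∈ Set.Ioi (ev (lof s y) v) from h1)]
  · rw [Set.indicator_of_notMem (show HH s hi y b ∉ {h | Low h s} from hl)]
    rw [low_iff s hs] at hl
    push Not at hl
    obtain ⟨v, hv, hle⟩ := hl
    rw [hy] at hle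
    symm
    apply mul_eq_zero_of_right
    refine Finset.prod_eq_zero (Finset.mem_univ (⟨v, hv⟩ : {v : Vt d // ¬ ∃ i, s i = v})) ?_
    rw [Set.indicator_of_notMem]
    intro hmem
    have h2 : ev (lof s y) v < b ⟨v, hv⟩ := hmem
    have h3 := HH_not s hi y b ⟨v, hv⟩
    simp only at h3
    rw [h3] at hle
    exact absurd h2 (not_lt.2 hle)

end Split

theorem measurable_g : Measurable g := by
  unfold g
  fun_prop

theorem measurable_G : Measurable (G : (Vt d → ℝ) → ENNReal) := by
  unfold G
  exact Finset.measurable_prod _ fun v _ => measurable_g.comp (measurable_pi_apply v)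

/-- the integrand after the integration over the other heights -/
noncomputable def Psi (s : Fin (d + 1) → Vt d) (l : Fin (d + 1) → ℝ) : ENNReal :=
  (∏ i, g (ev l (s i))) * ENNReal.ofReal
    (∏ v : {v : Vt d // ¬ ∃ i, s i = v}, Real.exp (-Real.exp (ev l v)))

theorem inner_eq (s : Fin (d + 1) → Vt d) (hs : (mat s).det ≠ 0) (y : Fin (d + 1) → ℝ) :
    ∫⁻ b, Set.indicator {h | Low h s} G (HH s (inj_of_det s hs) y b) = Psi s (lof s y) := by
  rw [lintegral_congr (F_eq s hs y), lintegral_const_mul, lintegral_tails]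
  · unfold Psi
    congr 1
    refine Finset.prod_congr rfl fun i _ => ?_
    rw [(lof_spec s hs y _).2 rfl i]
  · refine Finset.measurable_prod _ fun v _ => ?_
    exact (measurable_g.indicator measurableSet_Ioi).comp (measurable_pi_apply v)

theorem measurable_Psi (s : Fin (d + 1) → Vt d) : Measurable (Psi s) := by
  unfold Psi ev
  refine Measurable.mul ?_ ?_
  · refine Finset.measurable_prod _ fun i _ => measurable_g.comp ?_
    fun_prop
  · fun_prop

theorem Psi_eq (s : Fin (d + 1) → Vt d) (hs : (mat s).det ≠ 0) (l : Fin (d + 1) → ℝ) :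
    ENNReal.ofReal |(mat s).det| * Psi s l = ENNReal.ofReal
      (|(mat s).det| * (∏ i, Real.exp (ev l (s i))) * Real.exp (-Z l)) := by
  have hi := inj_of_det s hs
  have h1 : Real.exp (-Z l) = (∏ i, Real.exp (-Real.exp (ev l (s i)))) *
      ∏ v : {v : Vt d // ¬ ∃ i, s i = v}, Real.exp (-Real.exp (ev l v)) := by
    have h2 : Real.exp (-Z l) = ∏ v : Vt d, Real.exp (-Real.exp (ev l v)) := by
      rw [← Real.exp_sum, Z, Finset.sum_neg_distrib]
    rw [h2, ← Fintype.prod_subtype_mul_prod_subtype (fun v => ∃ i, s i = v)]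
    congr 1
    rw [← (es s hi).prod_comp]
    rfl
  have h3 : (∏ i, g (ev l (s i))) = ENNReal.ofReal
      ((∏ i, Real.exp (ev l (s i))) * ∏ i, Real.exp (-Real.exp (ev l (s i)))) := by
    rw [← Finset.prod_mul_distrib, ENNReal.ofReal_prod_of_nonneg (fun i _ => by positivity)]
    rfl
  rw [Psi, h3, ← ENNReal.ofReal_mul (by positivity), ← ENNReal.ofReal_mul (by positivity), h1]
  congr 1
  ring

theorem stProb : StProb := by
  intro d s hs
  refine ⟨measurableSet_low s hs, le_of_eq ?_⟩
  rw [lintegral_split s (inj_of_det s hs) _ (measurable_G.indicator (measurableSet_low s hs))]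
  simp_rw [inner_eq s hs, ← Psi_eq s hs]
  rw [lintegral_const_mul _ (measurable_Psi s)]
  have hu : IsUnit (mat s).det := isUnit_iff_ne_zero.2 hs
  -- change of variables
  have hmap := Real.map_matrix_volume_pi_eq_smul_volume_pi hs
  have hmeas : Measurable (fun y => Psi s (lof s y)) := by
    refine (measurable_Psi s).comp (measurable_pi_lambda _ fun j => ?_)
    simp only [lof, Matrix.mulVec, dotProduct]
    fun_prop
  have hlin : Measurable (Matrix.toLin' (mat s)) :=
    (Matrix.toLin' (mat s)).continuous_of_finiteDimensional.measurable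
  have h1 : ∫⁻ y, Psi s (lof s y) ∂(Measure.map (Matrix.toLin' (mat s)) volume) =
      ∫⁻ l, Psi s l := by
    rw [lintegral_map hmeas hlin]
    congr 1
    ext l
    congr 1
    rw [Matrix.toLin'_apply, lof, Matrix.mulVec_mulVec, Matrix.nonsing_inv_mul _ hu,
      Matrix.one_mulVec]
  rw [hmap, lintegral_smul_measure, smul_eq_mul] at h1
  rw [← h1, ← mul_assoc, ← ENNReal.ofReal_mul (abs_nonneg _), abs_inv,
    mul_inv_cancel₀ (abs_ne_zero.2 hs), ENNReal.ofReal_one, one_mul]

end Pool.Agent.Helper67.SC
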